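import Mathlib

set_option autoImplicit false

/-!
# Binomial coefficients which are products of primes of almost the same size
-/

namespace Pool.Agent.K1H4.BC

open Finset

theorem two_pow_not_dvd_factorial {k : ℕ} (hk : k ≠ 0) : ¬ 2 ^ k ∣ k.factorial := by
  intro h
  have h1 := Nat.emultiplicity_two_factorial_lt hk
  have h2 := le_emultiplicity_of_pow_dvd h
  exact absurd h1 (not_lt.2 h2)

theorem not_pow_factorial {k d : ℕ} (hk : 2 ≤ k) : d ^ k ≠ k.factorial := by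
  intro h
  have h1 : 2 ∣ k.factorial := Nat.dvd_factorial (by norm_num) hk
  rw [← h] at h1
  have h2 : 2 ∣ d := Nat.prime_two.dvd_of_dvd_pow h1
  have h3 : 2 ^ k ∣ d ^ k := pow_dvd_pow_of_dvd h2 k
  rw [h] at h3
  exact two_pow_not_dvd_factorial (by omega) h3

theorem nth_inj : Function.Injective (Nat.nth Nat.Prime) :=
  Nat.nth_injective Nat.infinite_setOfPred_prime

theorem prod_dvd (T : Finset ℕ) (N : ℕ) (h : ∀ i ∈ T, Nat.nth Nat.Prime i ∣ N) :
    ∏ i ∈ T, Nat.nth Nat.Prime i ∣ N := by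
  classical
  have h1 : ∏ p ∈ T.image (Nat.nth Nat.Prime), p = ∏ i ∈ T, Nat.nth Nat.Prime i :=
    prod_image fun x _ y _ hxy => nth_inj hxy
  rw [← h1]
  refine Finset.prod_primes_dvd N ?_ ?_
  · intro p hp
    obtain ⟨i, _, rfl⟩ := mem_image.1 hp
    exact (Nat.prime_nth_prime i).prime
  · intro p hp
    obtain ⟨i, hi, rfl⟩ := mem_image.1 hp
    exact h i hi

theorem core (k n P : ℕ) (hk : 2 ≤ k) (hn : 2 * k ≤ n) (J : Finset ℕ)
    (hprod : n.choose k = ∏ i ∈ J, Nat.nth Nat.Prime i)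
    (hP : ∀ i ∈ J, P ≤ Nat.nth Nat.Prime i) (hPK : 2 * k.factorial ≤ P) (ρ : ℝ)
    (hρ : ∀ T ⊆ J, (∏ i ∈ T, (Nat.nth Nat.Prime i : ℝ)) ≤ ρ * (P : ℝ) ^ T.card)
    (hρ2 : (1 + 2 * (k : ℝ) / n) * ρ < 1 + 1 / (k.factorial : ℝ)) : False := by
  classical
  set K := k.factorial with hK
  have hK0 : 0 < K := Nat.factorial_pos k
  have hK0' : (0 : ℝ) < K := by exact_mod_cast hK0
  have hn0 : (0 : ℝ) < n := by exact_mod_cast (by omega : 0 < n)
  have hP0 : (0 : ℝ) < P := by exact_mod_cast (by omega : 0 < P)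
  have hdesc : ∏ i ∈ range k, (n - i) = K * ∏ i ∈ J, Nat.nth Nat.Prime i := by
    rw [← hprod, ← Nat.descFactorial_eq_prod_range, Nat.descFactorial_eq_factorial_mul_choose]
  have hex : ∀ i ∈ J, ∃ j ∈ range k, Nat.nth Nat.Prime i ∣ n - j := by
    intro i hi
    have h1 : Nat.nth Nat.Prime i ∣ ∏ j ∈ range k, (n - j) := by
      rw [hdesc]
      exact Dvd.dvd.mul_left (dvd_prod_of_mem _ hi) _
    exact ((Nat.prime_nth_prime i).prime.dvd_finsetProd_iff _).1 h1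
  choose! f hf1 hf2 using hex
  set T : ℕ → Finset ℕ := fun j => J.filter fun i => f i = j with hT
  have hTsub : ∀ j, T j ⊆ J := fun j => filter_subset _ _
  have hdvd : ∀ j, (∏ i ∈ T j, Nat.nth Nat.Prime i) ∣ n - j := by
    intro j
    refine prod_dvd _ _ fun i hi => ?_
    have h1 := mem_filter.1 hi
    rw [← h1.2]
    exact hf2 i h1.1
  set D : ℕ → ℕ := fun j => (n - j) / ∏ i ∈ T j, Nat.nth Nat.Prime i with hD
  have hDm : ∀ j, D j * ∏ i ∈ T j, Nat.nth Nat.Prime i = n - j := fun j =>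
    Nat.div_mul_cancel (hdvd j)
  have hDprod : ∏ j ∈ range k, D j = K := by
    have h1 : (∏ j ∈ range k, D j) * ∏ i ∈ J, Nat.nth Nat.Prime i =
        K * ∏ i ∈ J, Nat.nth Nat.Prime i := by
      rw [← hdesc]
      have h2 : ∏ i ∈ J, Nat.nth Nat.Prime i =
          ∏ j ∈ range k, ∏ i ∈ T j, Nat.nth Nat.Prime i :=
        (prod_fiberwise_of_maps_to (fun i hi => hf1 i hi) _).symm
      rw [h2, ← prod_mul_distrib]
      exact prod_congr rfl fun j _ => hDm j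
    have h3 : 0 < ∏ i ∈ J, Nat.nth Nat.Prime i :=
      prod_pos fun i _ => (Nat.prime_nth_prime i).pos
    exact Nat.eq_of_mul_eq_mul_right h3 h1
  have hDle : ∀ j ∈ range k, D j ≤ K := by
    intro j hj
    exact Nat.le_of_dvd hK0 (hDprod ▸ dvd_prod_of_mem _ hj)
  have hDpos : ∀ j ∈ range k, 1 ≤ D j := by
    intro j hj
    rw [Nat.one_le_iff_ne_zero]
    intro h0
    rw [prod_eq_zero hj h0] at hDprod
    omega
  set s : ℕ → ℕ := fun j => (T j).card with hs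
  have hlow : ∀ j, (P : ℝ) ^ s j ≤ ∏ i ∈ T j, (Nat.nth Nat.Prime i : ℝ) := by
    intro j
    rw [hs]
    simp only
    rw [← prod_const]
    refine prod_le_prod (fun _ _ => hP0.le) fun i hi => ?_
    exact_mod_cast hP i (hTsub j hi)
  have hcmp : ∀ i ∈ range k, ∀ j ∈ range k,
      (D i : ℝ) * (P : ℝ) ^ s i < (1 + 1 / (K : ℝ)) * ((D j : ℝ) * (P : ℝ) ^ s j) := by
    intro i hi j hj
    have hik := mem_range.1 hi
    have hjk := mem_range.1 hj
    have hDj : (0 : ℝ) < D j := by exact_mod_cast hDpos j hj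
    have e1 : ((n - i : ℕ) : ℝ) = (D i : ℝ) * ∏ i ∈ T i, (Nat.nth Nat.Prime i : ℝ) := by
      rw [← hDm i]
      push_cast
      rfl
    have e2 : ((n - j : ℕ) : ℝ) = (D j : ℝ) * ∏ i ∈ T j, (Nat.nth Nat.Prime i : ℝ) := by
      rw [← hDm j]
      push_cast
      rfl
    have h1 : (D i : ℝ) * (P : ℝ) ^ s i ≤ ((n - i : ℕ) : ℝ) := by
      rw [e1]
      exact mul_le_mul_of_nonneg_left (hlow i) (Nat.cast_nonneg _)
    have h2 : ((n - i : ℕ) : ℝ) ≤ n := by exact_mod_cast Nat.sub_le n i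
    have h3 : (n : ℝ) ≤ (1 + 2 * (k : ℝ) / n) * ((n - j : ℕ) : ℝ) := by
      rw [Nat.cast_sub (by omega)]
      have hj' : (j : ℝ) ≤ k := by exact_mod_cast hjk.le
      have hn' : 2 * (k : ℝ) ≤ n := by exact_mod_cast hn
      have hk0 : (0 : ℝ) ≤ k := Nat.cast_nonneg _
      have h4 : 2 * (k : ℝ) / n * (n - j) = 2 * k - 2 * k * j / n := by
        field_simp
      have h5 : 2 * (k : ℝ) * j / n ≤ k := by
        rw [div_le_iff₀ hn0]
        nlinarith
      have h6 : (1 + 2 * (k : ℝ) / n) * ((n : ℝ) - j) = (n - j) + 2 * (k : ℝ) / n * (n - j) := by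
        ring
      rw [h6, h4]
      linarith
    have h4 : ((n - j : ℕ) : ℝ) ≤ (D j : ℝ) * (ρ * (P : ℝ) ^ s j) := by
      rw [e2]
      exact mul_le_mul_of_nonneg_left (hρ _ (hTsub j)) hDj.le
    have h5 : (0 : ℝ) ≤ 1 + 2 * (k : ℝ) / n := by positivity
    calc (D i : ℝ) * (P : ℝ) ^ s i ≤ (1 + 2 * (k : ℝ) / n) * ((n - j : ℕ) : ℝ) :=
          h1.trans (h2.trans h3)
      _ ≤ (1 + 2 * (k : ℝ) / n) * ((D j : ℝ) * (ρ * (P : ℝ) ^ s j)) :=
          mul_le_mul_of_nonneg_left h4 h5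
      _ = ((1 + 2 * (k : ℝ) / n) * ρ) * ((D j : ℝ) * (P : ℝ) ^ s j) := by ring
      _ < (1 + 1 / (K : ℝ)) * ((D j : ℝ) * (P : ℝ) ^ s j) :=
          mul_lt_mul_of_pos_right hρ2 (by positivity)
  have hsle : ∀ i ∈ range k, ∀ j ∈ range k, s i ≤ s j := by
    intro i hi j hj
    by_contra hcon
    have hlt : s j + 1 ≤ s i := by omega
    have h1 := hcmp i hi j hj
    have hDi : (1 : ℝ) ≤ D i := by exact_mod_cast hDpos i hi
    have hDj : (D j : ℝ) ≤ K := by exact_mod_cast hDle j hj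
    have hP1 : (1 : ℝ) ≤ P := by exact_mod_cast (by omega : 1 ≤ P)
    have hPj : (0 : ℝ) < (P : ℝ) ^ s j := by positivity
    have h2 : (P : ℝ) ^ (s j + 1) ≤ (P : ℝ) ^ s i := pow_le_pow_right₀ hP1 hlt
    have h3 : 2 * (K : ℝ) * (P : ℝ) ^ s j ≤ (D i : ℝ) * (P : ℝ) ^ s i := by
      have h4 : 2 * (K : ℝ) ≤ P := by exact_mod_cast hPK
      calc 2 * (K : ℝ) * (P : ℝ) ^ s j ≤ P * (P : ℝ) ^ s j :=
            mul_le_mul_of_nonneg_right h4 hPj.le
        _ = (P : ℝ) ^ (s j + 1) := by ring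
        _ ≤ 1 * (P : ℝ) ^ s i := by rw [one_mul]; exact h2
        _ ≤ (D i : ℝ) * (P : ℝ) ^ s i := mul_le_mul_of_nonneg_right hDi (by positivity)
    have hK1 : (1 : ℝ) ≤ K := by exact_mod_cast hK0
    have h5 : (1 + 1 / (K : ℝ)) * ((D j : ℝ) * (P : ℝ) ^ s j) ≤ 2 * (K : ℝ) * (P : ℝ) ^ s j := by
      have h6 : (1 + 1 / (K : ℝ)) * (D j : ℝ) ≤ 2 * K := by
        calc (1 + 1 / (K : ℝ)) * (D j : ℝ) ≤ (1 + 1 / (K : ℝ)) * K :=
              mul_le_mul_of_nonneg_left hDj (by positivity)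
          _ = K + 1 := by field_simp
          _ ≤ 2 * K := by linarith
      calc (1 + 1 / (K : ℝ)) * ((D j : ℝ) * (P : ℝ) ^ s j)
          = ((1 + 1 / (K : ℝ)) * (D j : ℝ)) * (P : ℝ) ^ s j := by ring
        _ ≤ _ := mul_le_mul_of_nonneg_right h6 hPj.le
    linarith
  have hDle2 : ∀ i ∈ range k, ∀ j ∈ range k, D i ≤ D j := by
    intro i hi j hj
    have h0 : s i = s j := le_antisymm (hsle i hi j hj) (hsle j hj i hi)
    have h1 := hcmp i hi j hj
    rw [h0] at h1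
    have hPj : (0 : ℝ) < (P : ℝ) ^ s j := by positivity
    have h2 : (D i : ℝ) < (1 + 1 / (K : ℝ)) * D j := by
      have h3 : (D i : ℝ) * (P : ℝ) ^ s j < ((1 + 1 / (K : ℝ)) * D j) * (P : ℝ) ^ s j := by
        calc (D i : ℝ) * (P : ℝ) ^ s j < _ := h1
          _ = _ := by ring
      exact lt_of_mul_lt_mul_right h3 hPj.le
    have h4 : (D j : ℝ) / K ≤ 1 := by
      rw [div_le_one hK0']
      exact_mod_cast hDle j hj
    have h5 : (D i : ℝ) < D j + 1 := by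
      calc (D i : ℝ) < (1 + 1 / (K : ℝ)) * D j := h2
        _ = D j + (D j : ℝ) / K := by ring
        _ ≤ D j + 1 := by linarith
    have h6 : D i < D j + 1 := by exact_mod_cast h5
    omega
  have h0 : 0 ∈ range k := mem_range.2 (by omega)
  have hall : ∀ j ∈ range k, D j = D 0 := fun j hj =>
    le_antisymm (hDle2 j hj 0 h0) (hDle2 0 h0 j hj)
  rw [prod_congr rfl hall, prod_const, card_range] at hDprod
  exact not_pow_factorial hk hDprod

end Pool.Agent.K1H4.BC
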