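import Pool.Agent.K1H4.BC.Main

set_option autoImplicit false

/-!
# The number of binomial coefficients which are products of consecutive primes
-/

namespace Pool.Agent.K1H4.BC

open Finset Filter

theorem choose_lt {k n n' : ℕ} (hk : 1 ≤ k) (hn : k ≤ n) (h : n < n') :
    n.choose k < n'.choose k := by
  induction n', h using Nat.le_induction with
  | base =>
    obtain ⟨k, rfl⟩ := Nat.exists_eq_add_of_le' hk
    rw [Nat.succ_eq_add_one, Nat.choose_succ_succ']
    have := Nat.choose_pos (n := n) (k := k) (by omega)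
    omega
  | succ m hm ih =>
    refine ih.trans ?_
    obtain ⟨k, rfl⟩ := Nat.exists_eq_add_of_le' hk
    rw [Nat.choose_succ_succ']
    have := Nat.choose_pos (n := m) (k := k) (by omega)
    omega

theorem choose_inj {k n n' : ℕ} (hk : 1 ≤ k) (hn : k ≤ n) (hn' : k ≤ n')
    (h : n.choose k = n'.choose k) : n = n' := by
  rcases lt_trichotomy n n' with h1 | h1 | h1
  · exact absurd h (choose_lt hk hn h1).ne
  · exact h1
  · exact absurd h (choose_lt hk hn' h1).ne'

open Classical in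
theorem count : ∃ C : ℝ, ∀ k : ℕ, 2 ≤ k →
    (∀ᶠ n : ℕ in atTop, ∀ a b : ℕ, a < b →
      Nat.choose n k = ∏ i ∈ Ico a b, Nat.nth Nat.Prime i →
        ∀ i ∈ Ico a b, (Nat.nth Nat.Prime i : ℝ) ≤ Real.log n ^ C) ∧
    ∀ᶠ X : ℕ in atTop, (((range (X + 1)).filter fun n => k + 2 ≤ n ∧ ∃ a b : ℕ, a < b ∧
      Nat.choose n k = ∏ i ∈ Ico a b, Nat.nth Nat.Prime i).card : ℝ) ≤ Real.log X ^ C := by
  obtain ⟨C, hC0, hC⟩ := main
  have hlogtop : Tendsto (fun n : ℕ => Real.log n) atTop atTop :=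
    Real.tendsto_log_atTop.comp tendsto_natCast_atTop_atTop
  refine ⟨2 * C + 1, fun k hk => ⟨?_, ?_⟩⟩
  · filter_upwards [hC k hk, hlogtop.eventually_ge_atTop 1] with n hn hl a b hab hprod i hi
    refine le_trans ?_ ((hn a b hab hprod).trans
      (Real.rpow_le_rpow_of_exponent_le hl (by linarith)))
    have h1 : i ≤ b - 1 := by
      have := Finset.mem_Ico.1 hi
      omega
    exact_mod_cast (Nat.nth_strictMono Nat.infinite_setOfPred_prime).monotone h1
  · obtain ⟨n₀, hn₀⟩ := eventually_atTop.1 (hC k hk)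
    filter_upwards [hlogtop.eventually_ge_atTop (4 + n₀ : ℝ)] with X hX
    set ℓ := Real.log X with hℓ
    have hn0 : (0 : ℝ) ≤ n₀ := Nat.cast_nonneg _
    have hℓ1 : 1 ≤ ℓ := by linarith
    have hX1 : 1 ≤ X := by
      by_contra h
      have : X = 0 := by omega
      rw [hℓ, this] at hℓ1
      simp at hℓ1
      linarith
    set L := ℓ ^ C with hL
    have hL1 : 1 ≤ L := Real.one_le_rpow hℓ1 hC0.le
    set W := (range (X + 1)).filter fun n => k + 2 ≤ n ∧ ∃ a b : ℕ, a < b ∧
      Nat.choose n k = ∏ i ∈ Ico a b, Nat.nth Nat.Prime i with hW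
    have hbig : (W.filter fun n => n₀ ≤ n).card ≤ (range (⌊L⌋₊ + 1) ×ˢ range (⌊L⌋₊ + 1)).card := by
      have hex : ∀ n ∈ W.filter fun n => n₀ ≤ n, ∃ p : ℕ × ℕ, p.1 < p.2 ∧
          Nat.choose n k = ∏ i ∈ Ico p.1 p.2, Nat.nth Nat.Prime i := by
        intro n hn
        obtain ⟨a, b, h1, h2⟩ := (mem_filter.1 (mem_filter.1 hn).1).2.2
        exact ⟨(a, b), h1, h2⟩
      choose! f hf1 hf2 using hex
      refine card_le_card_of_injOn f ?_ ?_
      · intro n hn
        have hn' := mem_filter.1 (mem_coe.1 hn)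
        have hnW := mem_filter.1 hn'.1
        have hnX : n ≤ X := by
          have := mem_range.1 hnW.1
          omega
        have h1 := hf1 n (mem_coe.1 hn)
        have h2 := hn₀ n hn'.2 (f n).1 (f n).2 h1 (hf2 n (mem_coe.1 hn))
        have h3 : Real.log n ^ C ≤ L := by
          have hn1 : 1 ≤ n := by omega
          refine Real.rpow_le_rpow (Real.log_natCast_nonneg n) ?_ hC0.le
          exact Real.log_le_log (by exact_mod_cast hn1) (by exact_mod_cast hnX)
        have h4 : Nat.nth Nat.Prime ((f n).2 - 1) ≤ ⌊L⌋₊ := Nat.le_floor (h2.trans h3)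
        have h5 : (f n).2 - 1 + 2 ≤ Nat.nth Nat.Prime ((f n).2 - 1) :=
          Nat.add_two_le_nth_prime _
        rw [mem_coe, mem_product, mem_range, mem_range]
        omega
      · intro n hn n' hn' h
        have h1 := mem_filter.1 (mem_filter.1 (mem_coe.1 hn)).1
        have h2 := mem_filter.1 (mem_filter.1 (mem_coe.1 hn')).1
        refine choose_inj (k := k) (by omega) (by omega) (by omega) ?_
        rw [hf2 n (mem_coe.1 hn), hf2 n' (mem_coe.1 hn'), h]
    have hsmall : (W.filter fun n => ¬ n₀ ≤ n).card ≤ n₀ := by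
      calc (W.filter fun n => ¬ n₀ ≤ n).card ≤ (range n₀).card := by
            refine card_le_card fun n hn => ?_
            rw [mem_range]
            exact not_le.1 (mem_filter.1 hn).2
        _ = n₀ := card_range _
    have hsplit := card_filter_add_card_filter_not (s := W) (fun n => n₀ ≤ n)
    rw [card_product, card_range] at hbig
    have hWle : (W.card : ℝ) ≤ ((⌊L⌋₊ : ℝ) + 1) * ((⌊L⌋₊ : ℝ) + 1) + n₀ := by
      have : W.card ≤ (⌊L⌋₊ + 1) * (⌊L⌋₊ + 1) + n₀ := by omega
      exact_mod_cast this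
    have hfl : (⌊L⌋₊ : ℝ) ≤ L := Nat.floor_le (by linarith)
    have hfl0 : (0 : ℝ) ≤ ⌊L⌋₊ := Nat.cast_nonneg _
    have h6 : ((⌊L⌋₊ : ℝ) + 1) * ((⌊L⌋₊ : ℝ) + 1) ≤ 4 * (L * L) := by nlinarith
    have h7 : ℓ ^ (2 * C + 1) = L * L * ℓ := by
      rw [Real.rpow_add (by linarith), Real.rpow_one, two_mul, Real.rpow_add (by linarith)]
    rw [h7]
    have h8 : (n₀ : ℝ) ≤ n₀ * (L * L) := by
      have : 1 ≤ L * L := by nlinarith
      nlinarith
    calc (W.card : ℝ) ≤ 4 * (L * L) + n₀ * (L * L) := by linarith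
      _ = L * L * (4 + n₀) := by ring
      _ ≤ L * L * ℓ := mul_le_mul_of_nonneg_left hX (by positivity)

end Pool.Agent.K1H4.BC
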