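import Pool.Agent.H295R3.Hoheisel
import Pool.Agent.K1H4.BC.Core

set_option autoImplicit false

/-!
# Binomial coefficients which are products of consecutive primes
-/

namespace Pool.Agent.K1H4.BC

open Finset Filter

theorem next_le {i q : ℕ} (hq : q.Prime) (h : Nat.nth Nat.Prime i < q) :
    Nat.nth Nat.Prime (i + 1) ≤ q := by
  have h1 : Nat.nth Nat.Prime (Nat.count Nat.Prime q) = q := Nat.nth_count hq
  rw [← h1] at h
  have h2 : i < Nat.count Nat.Prime q :=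
    (Nat.nth_strictMono Nat.infinite_setOfPred_prime).lt_iff_lt.1 h
  calc Nat.nth Nat.Prime (i + 1) ≤ Nat.nth Nat.Prime (Nat.count Nat.Prime q) :=
        (Nat.nth_strictMono Nat.infinite_setOfPred_prime).monotone h2
    _ = q := h1

/-- Gaps. -/
theorem gap {δ η : ℝ} {X₀ : ℕ} (hδ0 : 0 < δ) (hδ1 : δ < 1) (hη : 0 < η) (hX₀ : 2 ≤ X₀)
    (hH : ∀ X Y : ℕ, X₀ ≤ X → (X : ℝ) ^ (1 - δ) ≤ Y → Y ≤ X →
      η * Y / Real.log X ≤ (((Ioc X (X + Y)).filter Nat.Prime).card : ℝ))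
    (i : ℕ) (hi : X₀ ≤ Nat.nth Nat.Prime i) :
    (Nat.nth Nat.Prime (i + 1) : ℝ) ≤ Nat.nth Nat.Prime i *
      (1 + 2 * (Nat.nth Nat.Prime i : ℝ) ^ (-δ)) := by
  set X := Nat.nth Nat.Prime i with hX
  have hX1 : (1 : ℝ) ≤ X := by exact_mod_cast (by omega : 1 ≤ X)
  have hX0 : (0 : ℝ) < X := by linarith
  have hpow : (1 : ℝ) ≤ (X : ℝ) ^ (1 - δ) := Real.one_le_rpow hX1 (by linarith)
  have hpow2 : (X : ℝ) ^ (1 - δ) ≤ X := by
    calc (X : ℝ) ^ (1 - δ) ≤ (X : ℝ) ^ (1 : ℝ) :=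
          Real.rpow_le_rpow_of_exponent_le hX1 (by linarith)
      _ = X := Real.rpow_one _
  set Y := ⌈(X : ℝ) ^ (1 - δ)⌉₊ with hY
  have h1 := hH X Y hi (Nat.le_ceil _) (Nat.ceil_le.2 hpow2)
  have hY1 : (1 : ℝ) ≤ Y := hpow.trans (Nat.le_ceil _)
  have hlog : 0 < Real.log X := Real.log_pos (by exact_mod_cast (by omega : 1 < X))
  have h2 : 0 < η * Y / Real.log X := by positivity
  have h3 : 0 < ((Ioc X (X + Y)).filter Nat.Prime).card := by exact_mod_cast h2.trans_le h1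
  obtain ⟨q, hq⟩ := card_pos.1 h3
  rw [mem_filter, mem_Ioc] at hq
  have h4 : Nat.nth Nat.Prime (i + 1) ≤ X + Y := (next_le hq.2 hq.1.1).trans hq.1.2
  have h5 : (Nat.nth Nat.Prime (i + 1) : ℝ) ≤ X + Y := by exact_mod_cast h4
  have h6 : (Y : ℝ) ≤ (X : ℝ) ^ (1 - δ) + 1 := (Nat.ceil_lt_add_one (by positivity)).le
  have h7 : (X : ℝ) ^ (1 - δ) = X * (X : ℝ) ^ (-δ) := by
    rw [sub_eq_add_neg, Real.rpow_add hX0, Real.rpow_one]
  calc (Nat.nth Nat.Prime (i + 1) : ℝ) ≤ X + Y := h5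
    _ ≤ X + 2 * (X : ℝ) ^ (1 - δ) := by linarith
    _ = _ := by rw [h7]; ring

/-- The ratio of the primes of a short block. -/
theorem ratio {δ η : ℝ} {X₀ : ℕ} (hδ0 : 0 < δ) (hδ1 : δ < 1) (hη : 0 < η) (hX₀ : 2 ≤ X₀)
    (hH : ∀ X Y : ℕ, X₀ ≤ X → (X : ℝ) ^ (1 - δ) ≤ Y → Y ≤ X →
      η * Y / Real.log X ≤ (((Ioc X (X + Y)).filter Nat.Prime).card : ℝ))
    (a : ℕ) (ha : X₀ ≤ Nat.nth Nat.Prime a) (t : ℕ) :
    (Nat.nth Nat.Prime (a + t) : ℝ) ≤ Nat.nth Nat.Prime a *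
      (1 + 2 * (Nat.nth Nat.Prime a : ℝ) ^ (-δ)) ^ t := by
  induction t with
  | zero => simp
  | succ t ih =>
    have hmono : Nat.nth Nat.Prime a ≤ Nat.nth Nat.Prime (a + t) :=
      (Nat.nth_strictMono Nat.infinite_setOfPred_prime).monotone (Nat.le_add_right a t)
    have h1 := gap hδ0 hδ1 hη hX₀ hH (a + t) (ha.trans hmono)
    have ha0 : (0 : ℝ) < Nat.nth Nat.Prime a := by exact_mod_cast (by omega : 0 < Nat.nth Nat.Prime a)
    have h2 : (Nat.nth Nat.Prime (a + t) : ℝ) ^ (-δ) ≤ (Nat.nth Nat.Prime a : ℝ) ^ (-δ) :=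
      Real.rpow_le_rpow_of_nonpos ha0 (by exact_mod_cast hmono) (by linarith)
    have h3 : (0 : ℝ) ≤ Nat.nth Nat.Prime (a + t) := Nat.cast_nonneg _
    have h4 : (0 : ℝ) ≤ (Nat.nth Nat.Prime a : ℝ) ^ (-δ) := by positivity
    calc (Nat.nth Nat.Prime (a + (t + 1)) : ℝ)
        ≤ Nat.nth Nat.Prime (a + t) * (1 + 2 * (Nat.nth Nat.Prime (a + t) : ℝ) ^ (-δ)) := h1
      _ ≤ Nat.nth Nat.Prime (a + t) * (1 + 2 * (Nat.nth Nat.Prime a : ℝ) ^ (-δ)) :=
          mul_le_mul_of_nonneg_left (by linarith) h3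
      _ ≤ (Nat.nth Nat.Prime a * (1 + 2 * (Nat.nth Nat.Prime a : ℝ) ^ (-δ)) ^ t) *
            (1 + 2 * (Nat.nth Nat.Prime a : ℝ) ^ (-δ)) :=
          mul_le_mul_of_nonneg_right ih (by linarith)
      _ = _ := by ring

theorem prod_mul_log {n k : ℕ} {J : Finset ℕ} (F : Finset ℕ)
    (hF : F ⊆ J.image (Nat.nth Nat.Prime))
    (hprod : n.choose k = ∏ i ∈ J, Nat.nth Nat.Prime i) {X : ℕ} (hX : 1 ≤ X)
    (hFX : ∀ q ∈ F, X ≤ q) : F.card * Real.log X ≤ k * Real.log n := by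
  have h1 : X ^ F.card ≤ ∏ q ∈ F, q := by
    rw [← prod_const]
    exact prod_le_prod' hFX
  have h2 : ∏ q ∈ F, q ≤ ∏ q ∈ J.image (Nat.nth Nat.Prime), q :=
    prod_le_prod_of_subset_of_one_le' hF fun q hq _ => by
      obtain ⟨i, _, rfl⟩ := mem_image.1 hq
      exact (Nat.prime_nth_prime i).one_lt.le
  have h3 : ∏ q ∈ J.image (Nat.nth Nat.Prime), q = n.choose k := by
    rw [hprod]
    exact prod_image fun x _ y _ hxy => nth_inj hxy
  have h4 : n.choose k ≤ n ^ k := Nat.choose_le_pow n k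
  have h5 : X ^ F.card ≤ n ^ k := (h1.trans h2).trans (h3.le.trans h4)
  have h6 : ((X : ℝ)) ^ F.card ≤ (n : ℝ) ^ k := by exact_mod_cast h5
  have h7 := Real.log_le_log (by positivity) h6
  rwa [Real.log_pow, Real.log_pow] at h7

/-- The first prime of the block is small. -/
theorem first_small {δ η : ℝ} {X₀ : ℕ} (hδ0 : 0 < δ) (hδ1 : δ < 1) (hη : 0 < η) (hX₀ : 2 ≤ X₀)
    (hH : ∀ X Y : ℕ, X₀ ≤ X → (X : ℝ) ^ (1 - δ) ≤ Y → Y ≤ X →
      η * Y / Real.log X ≤ (((Ioc X (X + Y)).filter Nat.Prime).card : ℝ))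
    {k n a b : ℕ} (hk : 2 ≤ k) (hn : 2 * k ≤ n)
    (h1 : (1 + 2 * (k : ℝ) / n) * Real.exp (2 * (k : ℝ) ^ 2 / Real.log n) <
      1 + 1 / (k.factorial : ℝ))
    (h2 : 2 * (k.factorial : ℝ) + X₀ + 6 ≤ Real.log n)
    (hprod : n.choose k = ∏ i ∈ Ico a b, Nat.nth Nat.Prime i) :
    (Nat.nth Nat.Prime a : ℝ) ≤ Real.log n ^ (3 / δ) := by
  by_contra hcon
  rw [not_le] at hcon
  set P := Nat.nth Nat.Prime a with hPdef
  set ℓ := Real.log n with hℓ
  have hK0 : (0 : ℝ) < k.factorial := by exact_mod_cast Nat.factorial_pos k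
  have hX00 : (0 : ℝ) ≤ X₀ := Nat.cast_nonneg _
  have hℓ6 : 6 ≤ ℓ := by linarith
  have hℓ0 : 0 < ℓ := by linarith
  have h3δ : 1 ≤ 3 / δ := by rw [le_div_iff₀ hδ0]; linarith
  have hℓle : ℓ ≤ ℓ ^ (3 / δ) := by
    calc ℓ = ℓ ^ (1 : ℝ) := (Real.rpow_one _).symm
      _ ≤ ℓ ^ (3 / δ) := Real.rpow_le_rpow_of_exponent_le (by linarith) h3δ
  have hPℓ : ℓ < P := lt_of_le_of_lt hℓle hcon
  have hPX : X₀ ≤ P := by
    have : (X₀ : ℝ) ≤ P := by linarith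
    exact_mod_cast this
  have hPK : 2 * k.factorial ≤ P := by
    have : 2 * (k.factorial : ℝ) ≤ P := by linarith
    exact_mod_cast this
  have hP0 : (0 : ℝ) < P := by linarith
  have hlogP : 1 ≤ Real.log P := by
    rw [Real.le_log_iff_exp_le hP0]
    have := Real.exp_one_lt_d9
    linarith
  -- number of primes
  have hm : ((b - a : ℕ) : ℝ) ≤ k * ℓ := by
    have h4 := prod_mul_log (n := n) (k := k) (J := Ico a b) ((Ico a b).image (Nat.nth Nat.Prime))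
      (Subset.refl _) hprod (X := P) (by omega) (by
        intro q hq
        obtain ⟨i, hi, rfl⟩ := mem_image.1 hq
        exact (Nat.nth_strictMono Nat.infinite_setOfPred_prime).monotone (mem_Ico.1 hi).1)
    rw [card_image_of_injective _ nth_inj, Nat.card_Ico] at h4
    have h5 : ((b - a : ℕ) : ℝ) * 1 ≤ ((b - a : ℕ) : ℝ) * Real.log P :=
      mul_le_mul_of_nonneg_left hlogP (Nat.cast_nonneg _)
    linarith
  set m := b - a with hmdef
  set ε : ℝ := 2 * (P : ℝ) ^ (-δ) with hε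
  have hε0 : 0 ≤ ε := by positivity
  have hεle : ε ≤ 2 / ℓ ^ 3 := by
    have h4 : (P : ℝ) ^ (-δ) ≤ (ℓ ^ (3 / δ)) ^ (-δ) :=
      Real.rpow_le_rpow_of_nonpos (by positivity) hcon.le (by linarith)
    have h5 : (ℓ ^ (3 / δ)) ^ (-δ) = (ℓ ^ 3)⁻¹ := by
      rw [← Real.rpow_mul hℓ0.le]
      have : 3 / δ * -δ = -((3 : ℕ) : ℝ) := by
        push_cast
        field_simp
      rw [this, Real.rpow_neg hℓ0.le, Real.rpow_natCast]
    rw [h5] at h4
    rw [hε, div_eq_mul_inv]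
    linarith
  have hρm : ((1 + ε) ^ m) ^ m ≤ Real.exp (2 * (k : ℝ) ^ 2 / ℓ) := by
    have h4 : 1 + ε ≤ Real.exp ε := by linarith [Real.add_one_le_exp ε]
    calc ((1 + ε) ^ m) ^ m ≤ (Real.exp ε ^ m) ^ m := by gcongr
      _ = Real.exp (m * (m * ε)) := by
        rw [← Real.exp_nat_mul, ← Real.exp_nat_mul]
      _ ≤ Real.exp (2 * (k : ℝ) ^ 2 / ℓ) := by
        rw [Real.exp_le_exp]
        have h5 : (m : ℝ) * (m * ε) ≤ (k * ℓ) * ((k * ℓ) * (2 / ℓ ^ 3)) := by gcongr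
        have h6 : (k * ℓ) * ((k * ℓ) * (2 / ℓ ^ 3)) = 2 * (k : ℝ) ^ 2 / ℓ := by
          field_simp
        linarith
  have hone : 1 ≤ (1 + ε) ^ m := one_le_pow₀ (by linarith)
  refine core k n P hk hn (Ico a b) hprod ?_ hPK (Real.exp (2 * (k : ℝ) ^ 2 / ℓ)) ?_ h1
  · intro i hi
    exact (Nat.nth_strictMono Nat.infinite_setOfPred_prime).monotone (mem_Ico.1 hi).1
  · intro T hT
    have hcard : T.card ≤ m := by
      have := card_le_card hT
      rwa [Nat.card_Ico] at this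
    have h4 : ∀ i ∈ T, (Nat.nth Nat.Prime i : ℝ) ≤ P * (1 + ε) ^ m := by
      intro i hi
      have h5 := mem_Ico.1 (hT hi)
      have h6 := ratio hδ0 hδ1 hη hX₀ hH a hPX (i - a)
      rw [Nat.add_sub_cancel' h5.1] at h6
      refine h6.trans (mul_le_mul_of_nonneg_left ?_ hP0.le)
      exact pow_le_pow_right₀ (by linarith) (by omega)
    calc (∏ i ∈ T, (Nat.nth Nat.Prime i : ℝ)) ≤ ∏ _i ∈ T, (P * (1 + ε) ^ m : ℝ) :=
          prod_le_prod (fun _ _ => Nat.cast_nonneg _) h4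
      _ = ((1 + ε) ^ m) ^ T.card * (P : ℝ) ^ T.card := by
          rw [prod_const, mul_pow, mul_comm]
      _ ≤ ((1 + ε) ^ m) ^ m * (P : ℝ) ^ T.card := by
          refine mul_le_mul_of_nonneg_right ?_ (by positivity)
          exact pow_le_pow_right₀ hone hcard
      _ ≤ _ := mul_le_mul_of_nonneg_right hρm (by positivity)

theorem main : ∃ C : ℝ, 0 < C ∧ ∀ k : ℕ, 2 ≤ k → ∀ᶠ n : ℕ in atTop, ∀ a b : ℕ, a < b →
    n.choose k = ∏ i ∈ Ico a b, Nat.nth Nat.Prime i →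
    (Nat.nth Nat.Prime (b - 1) : ℝ) ≤ Real.log n ^ C := by
  obtain ⟨δ, η, hδ0, hδ1, hη, X₀, hX₀, hH⟩ := Pool.Agent.H295R3.D.hoheisel
  refine ⟨3 / δ + 1, by positivity, fun k hk => ?_⟩
  have hK0 : (0 : ℝ) < k.factorial := by exact_mod_cast Nat.factorial_pos k
  have hlogtop : Tendsto (fun n : ℕ => Real.log n) atTop atTop :=
    Real.tendsto_log_atTop.comp tendsto_natCast_atTop_atTop
  have hlim : Tendsto (fun n : ℕ => (1 + 2 * (k : ℝ) / n) *
      Real.exp (2 * (k : ℝ) ^ 2 / Real.log n)) atTop (nhds ((1 + 0) * Real.exp 0)) := by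
    refine Tendsto.mul (tendsto_const_nhds.add ?_) ((Real.continuous_exp.tendsto 0).comp ?_)
    · exact tendsto_const_nhds.div_atTop tendsto_natCast_atTop_atTop
    · exact tendsto_const_nhds.div_atTop hlogtop
  have hev1 : ∀ᶠ n : ℕ in atTop, (1 + 2 * (k : ℝ) / n) *
      Real.exp (2 * (k : ℝ) ^ 2 / Real.log n) < 1 + 1 / (k.factorial : ℝ) := by
    refine hlim.eventually_lt_const ?_
    rw [Real.exp_zero]
    have : (0 : ℝ) < 1 / (k.factorial : ℝ) := by positivity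
    linarith
  filter_upwards [hev1, hlogtop.eventually_ge_atTop
    (2 * (k.factorial : ℝ) + 3 * X₀ + 12 + 3 * k / η), eventually_ge_atTop (2 * k)] with
    n h1 h2 h3 a b hab hprod
  have hX00 : (2 : ℝ) ≤ X₀ := by exact_mod_cast hX₀
  have hk0 : (0 : ℝ) ≤ 3 * k / η := by positivity
  have hfirst := first_small hδ0 hδ1 hη hX₀ hH hk h3 h1 (by linarith) hprod
  by_contra hcon
  rw [not_le] at hcon
  set P := Nat.nth Nat.Prime a with hPdef
  set Q := Nat.nth Nat.Prime (b - 1) with hQdef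
  set ℓ := Real.log n with hℓ
  have hℓ12 : 12 ≤ ℓ := by linarith
  have hℓ0 : 0 < ℓ := by linarith
  have h3δ : 1 ≤ 3 / δ := by rw [le_div_iff₀ hδ0]; linarith
  have hℓC : ℓ ^ (3 / δ + 1) = ℓ ^ (3 / δ) * ℓ := by
    rw [Real.rpow_add hℓ0, Real.rpow_one]
  have hℓ2 : ℓ * ℓ ≤ ℓ ^ (3 / δ + 1) := by
    rw [hℓC]
    refine mul_le_mul_of_nonneg_right ?_ hℓ0.le
    calc ℓ = ℓ ^ (1 : ℝ) := (Real.rpow_one _).symm
      _ ≤ ℓ ^ (3 / δ) := Real.rpow_le_rpow_of_exponent_le (by linarith) h3δ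
  have hPQ : (P : ℝ) * ℓ < Q := by
    calc (P : ℝ) * ℓ ≤ ℓ ^ (3 / δ) * ℓ := mul_le_mul_of_nonneg_right hfirst hℓ0.le
      _ = ℓ ^ (3 / δ + 1) := hℓC.symm
      _ < Q := hcon
  have hQℓ : ℓ * ℓ < Q := lt_of_le_of_lt hℓ2 hcon
  set X := Q / 3 with hX
  have hX3 : 3 * X ≤ Q := by omega
  have hX3' : Q ≤ 3 * X + 2 := by omega
  have hX3r : (Q : ℝ) ≤ 3 * X + 2 := by exact_mod_cast hX3'
  have hXℓ : ℓ ≤ X := by nlinarith
  have hXX : X₀ ≤ X := by
    have : (X₀ : ℝ) ≤ X := by linarith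
    exact_mod_cast this
  have hPX : P ≤ X := by
    have hP0 : (0 : ℝ) ≤ P := Nat.cast_nonneg _
    have h4 : (P : ℝ) * 12 < Q := by nlinarith
    have h5 : P * 12 < Q := by exact_mod_cast h4
    omega
  have hX1 : (1 : ℝ) ≤ X := by linarith
  have hpow2 : (X : ℝ) ^ (1 - δ) ≤ X := by
    calc (X : ℝ) ^ (1 - δ) ≤ (X : ℝ) ^ (1 : ℝ) :=
          Real.rpow_le_rpow_of_exponent_le hX1 (by linarith)
      _ = X := Real.rpow_one _
  have h6 := hH X X hXX hpow2 le_rfl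
  have hlogX : 0 < Real.log X := Real.log_pos (by linarith)
  have h7 := prod_mul_log (n := n) (k := k) (J := Ico a b)
    ((Ioc X (X + X)).filter Nat.Prime) (by
      intro q hq
      rw [mem_filter, mem_Ioc] at hq
      obtain ⟨⟨hq1, hq2⟩, hq3⟩ := hq
      have h8 : Nat.nth Nat.Prime (Nat.count Nat.Prime q) = q := Nat.nth_count hq3
      refine mem_image.2 ⟨Nat.count Nat.Prime q, ?_, h8⟩
      have h9 : a < Nat.count Nat.Prime q := by
        refine (Nat.nth_strictMono Nat.infinite_setOfPred_prime).lt_iff_lt.1 ?_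
        rw [h8]
        exact lt_of_le_of_lt hPX hq1
      have h10 : Nat.count Nat.Prime q ≤ b - 1 := by
        refine (Nat.nth_strictMono Nat.infinite_setOfPred_prime).le_iff_le.1 ?_
        rw [h8]
        show q ≤ Q
        omega
      rw [mem_Ico]
      omega) hprod (X := X) (by omega) (by
        intro q hq
        rw [mem_filter, mem_Ioc] at hq
        exact hq.1.1.le)
  have h8 : η * X ≤ k * ℓ := by
    rw [div_le_iff₀ hlogX] at h6
    exact h6.trans h7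
  have h9 : (X : ℝ) ≤ k * ℓ / η := by
    rw [le_div_iff₀ hη]
    linarith
  have h10 : 3 * (k * ℓ / η) = 3 * k / η * ℓ := by ring
  have h11 : 3 * k / η * ℓ ≤ (ℓ - 12) * ℓ := mul_le_mul_of_nonneg_right (by linarith) hℓ0.le
  nlinarith

end Pool.Agent.K1H4.BC
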